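import Pool.Agent.U866.OM.Stm

/-!
# Project OM, package JC (helper438): joint continuity of the scalar curvature density of a smooth family
-/

set_option autoImplicit false

namespace Pool.Agent.U438.OM

open Pool.Agent.H498R3.GB Pool.Agent.U866.OM
open scoped BigOperators ContDiff Topology Matrix
open MeasureTheory Filter Metric

noncomputable section

variable {m : ℕ}

/-- partial derivative in the space variables -/
def dpd (i : Fin m) (F : ℝ × E m → ℝ) (q : ℝ × E m) : ℝ := pd i (fun z => F (q.1, z)) q.2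

theorem dpd_eq {F : ℝ × E m → ℝ} {V : Set (ℝ × E m)} (hV : IsOpen V) (hF : ContDiffOn ℝ ∞ F V)
    (i : Fin m) {q : ℝ × E m} (hq : q ∈ V) :
    dpd i F q = fderiv ℝ F q ((0 : ℝ), EuclideanSpace.single i 1) := by
  have h1 : DifferentiableAt ℝ F q :=
    (hF.contDiffAt (hV.mem_nhds hq)).differentiableAt (by simp)
  have h2 : HasFDerivAt (fun z : E m => (q.1, z)) (ContinuousLinearMap.inr ℝ ℝ (E m)) q.2 :=
    hasFDerivAt_prodMk_right q.1 q.2
  have h3 : HasFDerivAt F (fderiv ℝ F q) (q.1, q.2) := h1.hasFDerivAt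
  have h4 := h3.comp q.2 h2
  have h5 := pd_of_hasFDerivAt (f := fun z => F (q.1, z)) h4 i
  unfold dpd
  rw [h5]
  simp

theorem dpd_contDiffOn {F : ℝ × E m → ℝ} {V : Set (ℝ × E m)} (hV : IsOpen V) (hF : ContDiffOn ℝ ∞ F V)
    (i : Fin m) : ContDiffOn ℝ ∞ (dpd i F) V := by
  have h1 : ContDiffOn ℝ ∞ (fderiv ℝ F) V := hF.fderiv_of_isOpen hV (by simp)
  have h2 : ContDiffOn ℝ ∞ (fun q => fderiv ℝ F q ((0 : ℝ), EuclideanSpace.single i 1)) V :=
    h1.clm_apply contDiffOn_const
  exact h2.congr fun q hq => dpd_eq hV hF i hq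

theorem t_JC : S_JC := by
  intro m H V hV hH hpos
  -- first and second derivatives of the entries
  have c0 : ∀ i j, ContinuousOn (fun q : ℝ × E m => H q.1 q.2 i j) V := fun i j => (hH i j).continuousOn
  have c1 : ∀ k i j, ContinuousOn (fun q : ℝ × E m => pd k (fun z => H q.1 z i j) q.2) V := by
    intro k i j
    exact (dpd_contDiffOn hV (hH i j) k).continuousOn
  have c2 : ∀ l k i j, ContinuousOn (fun q : ℝ × E m => pd l (pd k (fun z => H q.1 z i j)) q.2) V := by
    intro l k i j
    exact (dpd_contDiffOn hV (dpd_contDiffOn hV (hH i j) k) l).continuousOn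
  have cM : ContinuousOn (fun q : ℝ × E m => H q.1 q.2) V :=
    continuousOn_pi.2 fun i => continuousOn_pi.2 fun j => c0 i j
  have cdet : ContinuousOn (fun q : ℝ × E m => (H q.1 q.2).det) V :=
    (continuous_id.matrix_det).comp_continuousOn cM
  have cadj : ContinuousOn (fun q : ℝ × E m => (H q.1 q.2).adjugate) V :=
    (continuous_id.matrix_adjugate).comp_continuousOn cM
  have cinv : ∀ i j, ContinuousOn (fun q : ℝ × E m => ginv (H q.1) q.2 i j) V := by
    intro i j
    have e : (fun q : ℝ × E m => ginv (H q.1) q.2 i j) =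
        fun q : ℝ × E m => ((H q.1 q.2).det)⁻¹ * (H q.1 q.2).adjugate i j := by
      funext q
      unfold ginv
      rw [Matrix.inv_def, Ring.inverse_eq_inv]
      rfl
    rw [e]
    refine ContinuousOn.mul (cdet.inv₀ fun q hq => (hpos q hq).det_pos.ne') ?_
    exact continuousOn_pi.1 (continuousOn_pi.1 cadj i) j
  have cGam : ∀ a i j, ContinuousOn (fun q : ℝ × E m => Gam (H q.1) q.2 a i j) V := by
    intro a i j
    unfold Gam
    exact (((c1 i a j).add (c1 j a i)).sub (c1 a i j)).div_const 2
  have cRm : ∀ i j k l, ContinuousOn (fun q : ℝ × E m => Rm (H q.1) q.2 i j k l) V := by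
    intro i j k l
    unfold Rm
    refine ContinuousOn.add (((((c2 j k i l).add (c2 i l j k)).sub (c2 i k j l)).sub
      (c2 j l i k)).div_const 2) ?_
    refine continuousOn_finset_sum _ fun a _ => continuousOn_finset_sum _ fun b _ => ?_
    exact (cinv a b).mul (((cGam a j k).mul (cGam b i l)).sub ((cGam a i k).mul (cGam b j l)))
  have cRic : ∀ j l, ContinuousOn (fun q : ℝ × E m => Ric (H q.1) q.2 j l) V := by
    intro j l
    unfold Ric
    refine continuousOn_finset_sum _ fun a _ => continuousOn_finset_sum _ fun b _ => ?_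
    exact (cinv a b).mul (cRm a j b l)
  have cScal : ContinuousOn (fun q : ℝ × E m => Scal (H q.1) q.2) V := by
    unfold Scal
    refine continuousOn_finset_sum _ fun a _ => continuousOn_finset_sum _ fun b _ => ?_
    exact (cinv a b).mul (cRic a b)
  refine cScal.mul ?_
  unfold volDensity
  exact cdet.sqrt

end

end Pool.Agent.U438.OM
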